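import Mathlib

section

/-!
Valuations at the prime 1 + i of character sums over relative difference sets in (Z/4)^n.
-/

set_option autoImplicit false

namespace Pool.Agent.MP_f5a786_co

open Finset

/-- Reduction of Gaussian integers modulo 1 + i. -/
def par : GaussianInt →+* ZMod 2 := Zsqrtd.lift ⟨1, by decide⟩

lemma par_apply (z : GaussianInt) : par z = (z.re : ZMod 2) + (z.im : ZMod 2) := by
  simp [par, Zsqrtd.lift]

/-- The prime 1 + i. -/
def pp : GaussianInt := ⟨1, 1⟩

lemma pp_ne_zero : pp ≠ 0 := by decide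

lemma norm_pp : pp.norm = 2 := by decide

lemma par_eq_norm (z : GaussianInt) : par z = (z.norm : ZMod 2) := by
  rw [par_apply, Zsqrtd.norm_def]
  push_cast
  generalize (z.re : ZMod 2) = a
  generalize (z.im : ZMod 2) = b
  revert a b
  decide

lemma exists_of_norm (n : ℕ) : ∀ z : GaussianInt, z.norm = 2 ^ n →
    ∃ w, z = pp ^ n * w ∧ par w = 1 := by
  induction n with
  | zero =>
    intro z hz
    refine ⟨z, by simp, ?_⟩
    rw [par_eq_norm, hz]; simp
  | succ n ih =>
    intro z hz
    have h0 : par z = 0 := by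
      rw [par_eq_norm, hz]; push_cast
      have : (2 : ZMod 2) = 0 := by decide
      rw [pow_succ, this, mul_zero]
    rw [par_apply] at h0
    have h1 : ((z.re + z.im : ℤ) : ZMod 2) = 0 := by push_cast; exact h0
    obtain ⟨c, hc⟩ := (ZMod.intCast_zmod_eq_zero_iff_dvd _ 2).1 h1
    have hz' : z = pp * ⟨c, c - z.re⟩ := by
      ext
      · simp [pp]
      · simp [pp]; push_cast at hc; linarith
    have hn : (⟨c, c - z.re⟩ : GaussianInt).norm = 2 ^ n := by
      have := hz
      rw [hz', Zsqrtd.norm_mul, norm_pp, pow_succ] at this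
      linarith
    obtain ⟨w, hw, hp⟩ := ih _ hn
    refine ⟨w, ?_, hp⟩
    rw [hz', hw]; ring

/-- The character a ↦ i ^ a of Z/4. -/
def ee (a : ZMod 4) : GaussianInt := (⟨0, 1⟩ : GaussianInt) ^ a.val

lemma ee_add : ∀ a b : ZMod 4, ee (a + b) = ee a * ee b := by decide

lemma ee_zero : ee 0 = 1 := by decide

lemma star_ee : ∀ a : ZMod 4, star (ee a) = ee (-a) := by decide

lemma sum_ee : ∀ u : ZMod 4, ∑ a, ee (u * a) = if u = 0 then 4 else 0 := by decide

lemma sum_ee_even : ∀ u : ZMod 4,
    ∑ a, (if 2 • a = 0 then ee (u * a) else 0) = if 2 • u = 0 then 2 else 0 := by decide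

/-- Indicator of even residues. -/
def ev (a : ZMod 4) : ZMod 2 := if 2 • a = 0 then 1 else 0

/-- The high bit. -/
def hi (a : ZMod 4) : ZMod 2 := if 2 ≤ a.val then 1 else 0

/-- Coefficients of the four test polynomials 1, Z - i, (Z-1)(Z-i), (Z-1)(Z^2+1). -/
def cf (b1 b2 : Bool) (u : ZMod 4) : GaussianInt :=
  match b1, b2, u.val with
  | false, false, 0 => 1
  | false, false, _ => 0
  | true, false, 0 => ⟨0, -1⟩
  | true, false, 1 => 1
  | true, false, _ => 0
  | false, true, 0 => ⟨0, 1⟩
  | false, true, 1 => ⟨-1, -1⟩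
  | false, true, 2 => 1
  | false, true, _ => 0
  | true, true, 0 => -1
  | true, true, 1 => 1
  | true, true, 2 => -1
  | true, true, _ => 1

/-- Values of the test polynomials divided by the power of 1 + i. -/
def gv (b1 b2 : Bool) (a : ZMod 4) : GaussianInt :=
  match b1, b2, a.val with
  | false, false, _ => 1
  | true, false, 0 => ⟨0, -1⟩
  | true, false, 1 => 0
  | true, false, 2 => -1
  | true, false, _ => ⟨-1, -1⟩
  | false, true, 2 => ⟨0, -1⟩
  | false, true, 3 => 1
  | false, true, _ => 0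
  | true, true, 2 => 1
  | true, true, _ => 0

/-- The valuation of a test polynomial. -/
def vv (b1 b2 : Bool) : ℕ := (if b1 then 1 else 0) + (if b2 then 3 else 0)

lemma cf_sum : ∀ (b1 b2 : Bool) (a : ZMod 4),
    ∑ u, cf b1 b2 u * ee (u * a) = pp ^ vv b1 b2 * gv b1 b2 a := by decide

lemma par_gv : ∀ (b1 b2 : Bool) (a : ZMod 4),
    par (gv b1 b2 a) = (if b1 then ev a else 1) * (if b2 then hi a else 1) := by
  simp only [par_apply]; decide

lemma par_cf_sum : ∀ b1 : Bool, ∑ u, par (cf b1 true u) = 0 := by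
  simp only [par_apply]; decide

lemma par_cf_sum_ev : ∀ b1 : Bool, ∑ u, par (cf b1 true u) * ev u = 0 := by
  simp only [par_apply]; decide

variable {ι : Type} [Fintype ι] [DecidableEq ι]

/-- Characters of (Z/4)^ι. -/
def chi (u g : ι → ZMod 4) : GaussianInt := ∏ t, ee (u t * g t)

omit [DecidableEq ι] in
lemma chi_sub (u g h : ι → ZMod 4) : chi u (g - h) = chi u g * star (chi u h) := by
  unfold chi
  rw [star_prod, ← prod_mul_distrib]
  refine prod_congr rfl fun t _ => ?_
  rw [star_ee, ← ee_add]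
  congr 1
  simp only [Pi.sub_apply]; ring

omit [DecidableEq ι] in
lemma chi_zero_right (u : ι → ZMod 4) : chi u 0 = 1 := by
  simp [chi, ee_zero]

lemma sum_chi (u : ι → ZMod 4) (hu : u ≠ 0) : ∑ g, chi u g = 0 := by
  unfold chi
  have := Finset.prod_univ_sum (fun _ : ι => (univ : Finset (ZMod 4))) (fun t a => ee (u t * a))
  rw [Fintype.piFinset_univ] at this
  rw [← this]
  obtain ⟨t, ht⟩ := Function.ne_iff.1 hu
  refine prod_eq_zero (mem_univ t) ?_
  rw [sum_ee]; exact if_neg ht

lemma sum_chi_even (u : ι → ZMod 4) :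
    ∑ g, (if 2 • g = 0 then chi u g else 0) = if 2 • u = 0 then 2 ^ Fintype.card ι else 0 := by
  have h1 : ∀ g : ι → ZMod 4, (if 2 • g = 0 then chi u g else 0) =
      ∏ t, (if 2 • g t = 0 then ee (u t * g t) else 0) := by
    intro g
    split_ifs with h
    · refine prod_congr rfl fun t _ => ?_
      exact (if_pos (congrFun h t)).symm
    · obtain ⟨t, ht⟩ := Function.ne_iff.1 h
      refine (prod_eq_zero (mem_univ t) ?_).symm
      exact if_neg ht
  simp only [h1]
  have := Finset.prod_univ_sum (fun _ : ι => (univ : Finset (ZMod 4)))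
    (fun t a => if 2 • a = 0 then ee (u t * a) else 0)
  rw [Fintype.piFinset_univ] at this
  rw [← this]
  simp only [sum_ee_even]
  split_ifs with h
  · have h' : ∀ t, 2 • u t = 0 := fun t => congrFun h t
    simp only [h', if_true]
    simp
  · obtain ⟨t, ht⟩ := Function.ne_iff.1 h
    refine prod_eq_zero (mem_univ t) ?_
    exact if_neg ht

lemma prod_ev (u : ι → ZMod 4) : ∏ t, ev (u t) = if 2 • u = 0 then 1 else 0 := by
  split_ifs with h
  · refine prod_eq_one fun t _ => ?_
    exact if_pos (congrFun h t)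
  · obtain ⟨t, ht⟩ := Function.ne_iff.1 h
    exact prod_eq_zero (mem_univ t) (if_neg ht)

variable {A : Type} [Fintype A] [AddCommGroup A] [DecidableEq A]

/-- Every character sum over the set is (1+i)^n times a number whose parity only depends on
whether the character is trivial on the elements of order two. -/
lemma char_sum (φ : A ≃+ (ι → ZMod 4)) (D : Finset A) (hcard : D.card = 2 ^ Fintype.card ι)
    (hD : ∀ F : A → GaussianInt,
      ∑ d ∈ D, ∑ d' ∈ D, F (d - d') + ∑ g, (if 2 • g = 0 then F g else 0)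
        = D.card • F 0 + ∑ g, F g)
    (hι : Nonempty ι) (y : A) (u : ι → ZMod 4) :
    ∃ w, ∑ d ∈ D, chi u (φ (d - y)) = pp ^ Fintype.card ι * w ∧
      par w = 1 - ∏ t, ev (u t) := by
  by_cases hu : u = 0
  · subst hu
    refine ⟨(star pp) ^ Fintype.card ι, ?_, ?_⟩
    · have h2 : pp * star pp = 2 := by decide
      rw [← mul_pow, h2]
      simp [chi, ee_zero, hcard]
    · have h3 : par (star pp) = 0 := by rw [par_apply]; decide
      rw [map_pow, h3, prod_ev, zero_pow Fintype.card_ne_zero]
      simp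
  · set z := ∑ d ∈ D, chi u (φ (d - y)) with hz
    have h1 : z * star z = ∑ d ∈ D, ∑ d' ∈ D, chi u (φ (d - d')) := by
      rw [hz, star_sum, sum_mul_sum]
      refine sum_congr rfl fun d _ => sum_congr rfl fun d' _ => ?_
      rw [← chi_sub, ← map_sub]
      congr 2
      abel
    have h2 := hD (fun g => chi u (φ g))
    have h3 : ∑ g, chi u (φ g) = 0 := by
      rw [← sum_chi u hu]
      exact Equiv.sum_comp φ.toEquiv (fun g => chi u g)
    have h4 : ∑ g, (if 2 • g = 0 then chi u (φ g) else 0) =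
        if 2 • u = 0 then 2 ^ Fintype.card ι else 0 := by
      rw [← sum_chi_even u, ← Equiv.sum_comp φ.toEquiv]
      refine sum_congr rfl fun g _ => ?_
      have : (2 • g = 0) ↔ (2 • φ g = 0) := by
        rw [← map_nsmul, φ.map_eq_zero_iff]
      simp only [this]
      rfl
    simp only [h3, h4, ← h1, map_zero, chi_zero_right, hcard, add_zero] at h2
    rw [← Zsqrtd.norm_eq_mul_conj] at h2
    by_cases h : 2 • u = 0
    · rw [if_pos h] at h2
      have h5 : (z.norm : GaussianInt) = 0 := by
        have : ((2 ^ Fintype.card ι : ℕ) • (1 : GaussianInt)) = 2 ^ Fintype.card ι := by simp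
        rw [this] at h2
        simpa using h2
      have h6 : z.norm = 0 := by exact_mod_cast h5
      refine ⟨0, ?_, ?_⟩
      · rw [mul_zero]; exact GaussianInt.norm_eq_zero.1 h6
      · rw [prod_ev, if_pos h]; simp
    · rw [if_neg h, add_zero] at h2
      have h6 : z.norm = 2 ^ Fintype.card ι := by
        have : ((2 ^ Fintype.card ι : ℕ) • (1 : GaussianInt)) =
            ((2 ^ Fintype.card ι : ℤ) : GaussianInt) := by simp
        rw [this] at h2
        exact_mod_cast h2
      obtain ⟨w, hw, hp⟩ := exists_of_norm _ z h6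
      refine ⟨w, hw, ?_⟩
      rw [prod_ev, if_neg h, hp]; simp

/-- The main congruence. -/
theorem core (φ : A ≃+ (ι → ZMod 4)) (D : Finset A) (hcard : D.card = 2 ^ Fintype.card ι)
    (hD : ∀ F : A → GaussianInt,
      ∑ d ∈ D, ∑ d' ∈ D, F (d - d') + ∑ g, (if 2 • g = 0 then F g else 0)
        = D.card • F 0 + ∑ g, F g)
    (y : A) (b1 b2 : ι → Bool) (hv : ∑ t, vv (b1 t) (b2 t) = Fintype.card ι)
    (m : ι) (hm : b2 m = true) :
    ∑ d ∈ D, ∏ t, ((if b1 t then ev (φ (d - y) t) else 1) *
      (if b2 t then hi (φ (d - y) t) else 1)) = 0 := by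
  choose w hw hp using char_sum φ D hcard hD ⟨m⟩ y
  have h1 : ∀ d, ∏ t, (pp ^ vv (b1 t) (b2 t) * gv (b1 t) (b2 t) (φ (d - y) t)) =
      ∑ u : ι → ZMod 4, (∏ t, cf (b1 t) (b2 t) (u t)) * chi u (φ (d - y)) := by
    intro d
    simp only [← cf_sum]
    have := Finset.prod_univ_sum (fun _ : ι => (univ : Finset (ZMod 4)))
      (fun t a => cf (b1 t) (b2 t) a * ee (a * φ (d - y) t))
    rw [Fintype.piFinset_univ] at this
    rw [this]
    refine sum_congr rfl fun u _ => ?_
    rw [prod_mul_distrib]; rfl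
  have h2 : pp ^ Fintype.card ι * ∑ d ∈ D, ∏ t, gv (b1 t) (b2 t) (φ (d - y) t) =
      pp ^ Fintype.card ι * ∑ u : ι → ZMod 4, (∏ t, cf (b1 t) (b2 t) (u t)) * w u := by
    calc _ = ∑ d ∈ D, ∏ t, (pp ^ vv (b1 t) (b2 t) * gv (b1 t) (b2 t) (φ (d - y) t)) := by
          rw [mul_sum]
          refine sum_congr rfl fun d _ => ?_
          rw [prod_mul_distrib, prod_pow_eq_pow_sum, hv]
      _ = ∑ u : ι → ZMod 4, (∏ t, cf (b1 t) (b2 t) (u t)) * ∑ d ∈ D, chi u (φ (d - y)) := by
          simp only [h1]
          rw [sum_comm]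
          simp only [mul_sum]
      _ = _ := by
          rw [mul_sum]
          refine sum_congr rfl fun u _ => ?_
          rw [hw]; ring
  have h3 := congrArg par (mul_left_cancel₀ (pow_ne_zero _ pp_ne_zero) h2)
  simp only [map_sum, map_prod, map_mul, par_gv, hp] at h3
  rw [h3]
  have h4 := Finset.prod_univ_sum (fun _ : ι => (univ : Finset (ZMod 4)))
      (fun t a => par (cf (b1 t) (b2 t) a))
  have h5 := Finset.prod_univ_sum (fun _ : ι => (univ : Finset (ZMod 4)))
      (fun t a => par (cf (b1 t) (b2 t) a) * ev a)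
  rw [Fintype.piFinset_univ] at h4 h5
  rw [prod_eq_zero (mem_univ m) (by rw [hm]; exact par_cf_sum _)] at h4
  rw [prod_eq_zero (mem_univ m) (by rw [hm]; exact par_cf_sum_ev _)] at h5
  simp only [mul_sub, mul_one, sum_sub_distrib, ← prod_mul_distrib]
  rw [← h4, ← h5, sub_zero]

end Pool.Agent.MP_f5a786_co

end

section

/-!
Relative difference sets with parameters (n,n,n,1), n even: the theorem of Ganley on the
shape of the group.
-/

set_option autoImplicit false

namespace Pool.Agent.MP_f5a786_co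

open Finset

variable {A : Type} [AddCommGroup A]

/-- D is a transversal of N and each element outside N is a difference exactly once. -/
structure IsRDS (N : AddSubgroup A) (D : Finset A) : Prop where
  diff : ∀ g, g ∉ N → ∃! p : A × A, p.1 ∈ D ∧ p.2 ∈ D ∧ p.1 - p.2 = g
  trans : ∀ g, ∃! d, d ∈ D ∧ d - g ∈ N

namespace IsRDS

variable {N : AddSubgroup A} {D : Finset A} (h : IsRDS N D)
include h

/-- The element of D in the coset of g. -/
noncomputable def rep (g : A) : A := (h.trans g).exists.choose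

lemma rep_mem (g : A) : h.rep g ∈ D := (h.trans g).exists.choose_spec.1

lemma rep_sub (g : A) : h.rep g - g ∈ N := (h.trans g).exists.choose_spec.2

lemma rep_eq {g d : A} (hd : d ∈ D) (hg : d - g ∈ N) : h.rep g = d :=
  (h.trans g).unique ⟨h.rep_mem g, h.rep_sub g⟩ ⟨hd, hg⟩

lemma eq_of_sub_mem {d d' : A} (hd : d ∈ D) (hd' : d' ∈ D) (hs : d - d' ∈ N) : d = d' :=
  (h.trans d').unique ⟨hd, hs⟩ ⟨hd', by simp⟩

lemma rep_congr {g g' : A} (hg : g - g' ∈ N) : h.rep g = h.rep g' := by
  refine (h.rep_eq (h.rep_mem g) ?_).symm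
  have := N.add_mem (h.rep_sub g) hg
  simpa using this

lemma diff_unique {a b c d : A} (ha : a ∈ D) (hb : b ∈ D) (hc : c ∈ D) (hd : d ∈ D)
    (he : a - b = c - d) (hn : a - b ∉ N) : a = c ∧ b = d := by
  have := (h.diff _ hn).unique (y₁ := (a, b)) (y₂ := (c, d)) ⟨ha, hb, rfl⟩ ⟨hc, hd, he.symm⟩
  exact ⟨congrArg Prod.fst this, congrArg Prod.snd this⟩

variable [Fintype A] [DecidableEq A]

open Classical in
lemma count {R : Type} [AddCommMonoid R] (F : A → R) :
    ∑ d ∈ D, ∑ d' ∈ D, F (d - d') + ∑ g, (if g ∈ N then F g else 0)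
      = D.card • F 0 + ∑ g, F g := by
  have h1 : ∑ d ∈ D, ∑ d' ∈ D, F (d - d') =
      ∑ p ∈ D.diag, F (p.1 - p.2) + ∑ p ∈ D.offDiag, F (p.1 - p.2) := by
    rw [← sum_product', ← diag_union_offDiag, sum_union (disjoint_diag_offDiag _)]
  have h2 : ∑ p ∈ D.diag, F (p.1 - p.2) = D.card • F 0 := by
    rw [sum_diag]; simp
  have h3 : ∑ p ∈ D.offDiag, F (p.1 - p.2) = ∑ g ∈ univ.filter (fun g => g ∉ N), F g := by
    refine sum_bij (fun p _ => p.1 - p.2) ?_ ?_ ?_ ?_
    · intro p hp
      rw [mem_offDiag] at hp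
      simp only [mem_filter, mem_univ, true_and]
      exact fun hn => hp.2.2 (h.eq_of_sub_mem hp.1 hp.2.1 hn)
    · intro p hp q hq he
      rw [mem_offDiag] at hp hq
      have := h.diff_unique hp.1 hp.2.1 hq.1 hq.2.1 he
        (fun hn => hp.2.2 (h.eq_of_sub_mem hp.1 hp.2.1 hn))
      exact Prod.ext this.1 this.2
    · intro g hg
      simp only [mem_filter, mem_univ, true_and] at hg
      obtain ⟨p, hp⟩ := (h.diff g hg).exists
      refine ⟨p, ?_, hp.2.2⟩
      rw [mem_offDiag]
      refine ⟨hp.1, hp.2.1, fun he => hg ?_⟩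
      rw [← hp.2.2, he, sub_self]; exact N.zero_mem
    · intro p _; rfl
  rw [h1, h2, h3, add_assoc, ← sum_filter, add_comm (∑ g ∈ _, F g),
    sum_filter_add_sum_filter_not]

lemma card_eq : Fintype.card A = D.card * Nat.card N := by
  have e : A ≃ D × N :=
    { toFun := fun g => (⟨h.rep g, h.rep_mem g⟩, ⟨h.rep g - g, h.rep_sub g⟩)
      invFun := fun p => p.1 - p.2
      left_inv := fun g => by simp
      right_inv := fun p => by
        have : h.rep (p.1 - p.2) = p.1 := h.rep_eq p.1.2 (by simp)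
        ext <;> simp [this] }
  rw [← Nat.card_eq_fintype_card, Nat.card_congr e, Nat.card_prod]
  simp

omit h [AddCommGroup A] [Fintype A] in
lemma sum_symm (s : Finset A) (K : A → A → ZMod 2) (hK : ∀ a b, K a b = K b a) :
    ∑ a ∈ s, ∑ b ∈ s, K a b = ∑ a ∈ s, K a a := by
  induction s using Finset.induction_on with
  | empty => simp
  | insert x s hx ih =>
    simp only [sum_insert hx, sum_add_distrib, ih]
    have h1 : ∑ a ∈ s, K a x = ∑ a ∈ s, K x a := sum_congr rfl fun a _ => hK a x
    rw [h1]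
    have h2 : ∀ z : ZMod 2, z + z = 0 := by decide
    linear_combination h2 (∑ a ∈ s, K x a)

/-- Every element is of the form 2 e - d. -/
lemma exists_double (hev : Even D.card) (g : A) : ∃ e ∈ D, ∃ d ∈ D, e + e - d = g := by
  classical
  have hc : (D.card : ZMod 2) = 0 := (ZMod.natCast_eq_zero_iff_even).2 hev
  have h2 : ∀ z : ZMod 2, z + z = 0 := by decide
  have ha : ∑ e ∈ D, ∑ e' ∈ D, ∑ d ∈ D, (if e + e' - d = g then (1 : ZMod 2) else 0) = 1 := by
    have h1 : ∀ e, ∑ e' ∈ D, ∑ d ∈ D, (if e + e' - d = g then (1 : ZMod 2) else 0) =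
        1 + (if e - g ∈ N then 1 else 0) := by
      intro e
      have h3 := h.count (fun z => if z = g - e then (1 : ZMod 2) else 0)
      have h4 : ∑ z, (if z ∈ N then (if z = g - e then (1 : ZMod 2) else 0) else 0) =
          if e - g ∈ N then 1 else 0 := by
        rw [sum_eq_single (g - e)]
        · have : (g - e ∈ N) ↔ (e - g ∈ N) := by rw [← N.neg_mem_iff, neg_sub]
          simp [this]
        · intro b _ hb; simp [hb]
        · simp
      rw [h4, nsmul_eq_mul, hc, zero_mul, zero_add] at h3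
      simp only [sum_ite_eq', mem_univ, if_true] at h3
      have h5 : ∀ e' d, (e + e' - d = g) ↔ (e' - d = g - e) := by
        intro e' d
        constructor <;> intro hh
        · rw [← hh]; abel
        · rw [add_sub_assoc, hh]; abel
      simp only [h5]
      linear_combination h3 - h2 (if e - g ∈ N then 1 else 0)
    simp only [h1, sum_add_distrib]
    rw [sum_const, nsmul_eq_mul, hc, zero_mul, zero_add, sum_eq_single (h.rep g)]
    · rw [if_pos (h.rep_sub g)]
    · intro b hb hne
      exact if_neg fun hn => hne (h.rep_eq hb hn).symm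
    · intro hn; exact absurd (h.rep_mem g) hn
  rw [sum_symm D _ (fun a b => by simp only [add_comm a b])] at ha
  by_contra hcon
  push Not at hcon
  rw [sum_eq_zero fun e he => sum_eq_zero fun d hd => if_neg (hcon e he d hd)] at ha
  exact zero_ne_one ha

lemma double_inj (hev : Even D.card) (hN : Nat.card N = D.card) {e d e' d' : A}
    (he : e ∈ D) (hd : d ∈ D) (he' : e' ∈ D) (hd' : d' ∈ D)
    (hh : e + e - d = e' + e' - d') : e = e' ∧ d = d' := by
  let f : D × D → A := fun p => p.1 + p.1 - p.2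
  have hs : Function.Surjective f := by
    intro g
    obtain ⟨a, ha, b, hb, hab⟩ := h.exists_double hev g
    exact ⟨(⟨a, ha⟩, ⟨b, hb⟩), hab⟩
  have hb : Function.Bijective f := by
    refine (Fintype.bijective_iff_surjective_and_card f).2 ⟨hs, ?_⟩
    rw [h.card_eq, hN]; simp
  have := hb.1 (a₁ := (⟨e, he⟩, ⟨d, hd⟩)) (a₂ := (⟨e', he'⟩, ⟨d', hd'⟩)) hh
  simpa using this

lemma double_mem (hev : Even D.card) (hN : Nat.card N = D.card) (h0 : (0 : A) ∈ D) (g : A) :
    g + g ∈ N := by
  have h1 : h.rep g + h.rep g ∈ N := by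
    by_contra hn
    obtain ⟨p, hp⟩ := (h.diff _ hn).exists
    have := h.double_inj hev hN (h.rep_mem g) hp.1 h0 hp.2.1 (by rw [← hp.2.2]; abel)
    rw [this.1] at hn
    exact hn (by simp)
  have := N.sub_mem h1 (N.add_mem (h.rep_sub g) (h.rep_sub g))
  convert this using 1
  abel

omit [Fintype A] [DecidableEq A] in
lemma mem_of_double {g : A} (hg : g + g = 0) : g ∈ N := by
  by_contra hn
  obtain ⟨p, hp⟩ := (h.diff _ hn).exists
  have h1 : p.1 - p.2 = p.2 - p.1 := by
    have : p.2 - p.1 = -g := by rw [← hp.2.2]; abel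
    rw [this, hp.2.2]; exact eq_neg_of_add_eq_zero_left hg
  have := h.diff_unique hp.1 hp.2.1 hp.2.1 hp.1 h1 (by rw [hp.2.2]; exact hn)
  apply hn
  rw [← hp.2.2, this.1, sub_self]; exact N.zero_mem

lemma exists_half (hev : Even D.card) (hN : Nat.card N = D.card) (h0 : (0 : A) ∈ D) {g : A}
    (hg : g ∈ N) : ∃ e ∈ D, e + e = g := by
  let f : D → N := fun e => ⟨e + e, h.double_mem hev hN h0 e⟩
  have hi : Function.Injective f := by
    intro a b hab
    have h1 : (a : A) + a = b + b := congrArg Subtype.val hab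
    exact Subtype.ext (h.double_inj hev hN a.2 h0 b.2 h0 (by rw [h1])).1
  have hb := hi.bijective_of_nat_card_le (by rw [hN]; simp)
  obtain ⟨e, he⟩ := hb.2 ⟨g, hg⟩
  exact ⟨e, e.2, congrArg Subtype.val he⟩

/-- N consists of the elements of order at most two. -/
lemma mem_iff (hev : Even D.card) (hN : Nat.card N = D.card) (h0 : (0 : A) ∈ D) (g : A) :
    g ∈ N ↔ 2 • g = 0 := by
  rw [two_nsmul]
  refine ⟨fun hg => ?_, h.mem_of_double⟩
  obtain ⟨e, he, hh⟩ := h.exists_half hev hN h0 (N.add_mem hg hg)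
  have h1 : e - g ∈ N := h.mem_of_double (by rw [← sub_eq_zero] at hh; rw [← hh]; abel)
  have h2 : e = 0 := h.eq_of_sub_mem he h0 (by simpa using N.add_mem h1 hg)
  rw [← hh, h2, add_zero]

/-- The theorem of Ganley. -/
lemma exists_coord (hev : Even D.card) (hN : Nat.card N = D.card) (h0 : (0 : A) ∈ D) :
    ∃ n : ℕ, D.card = 2 ^ n ∧ Nonempty (A ≃+ (Fin n → ZMod 4)) := by
  have hm := h.mem_iff hev hN h0
  letI : Module (ZMod 2) N := AddCommGroup.zmodModule (n := 2) (by
    intro x; exact Subtype.ext ((hm x).1 x.2))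
  haveI : Module.Finite (ZMod 2) N := Module.Finite.of_finite
  have h4 : ∀ g : A, 4 • g = 0 := by
    intro g
    have := (hm _).1 (h.double_mem hev hN h0 g)
    rw [← this]; abel
  letI : Module (ZMod 4) A := AddCommGroup.zmodModule (n := 4) h4
  set n := Module.finrank (ZMod 2) N with hn
  have hc : D.card = 2 ^ n := by
    rw [← hN, Module.natCard_eq_pow_finrank (K := ZMod 2)]; simp [hn]
  let b := Module.finBasis (ZMod 2) N
  choose g _ hg using fun t => h.exists_half hev hN h0 (b t).2
  have hind : ∀ c : Fin n → ℕ, ∑ t, c t • (g t + g t) = 0 → ∀ t, 2 ∣ c t := by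
    intro c hcz t
    have h1 : ∑ t, (c t : ZMod 2) • b t = 0 := by
      simp only [Nat.cast_smul_eq_nsmul]
      apply Subtype.ext
      simp only [hg] at hcz
      simpa using hcz
    have := Fintype.linearIndependent_iff.1 b.linearIndependent _ h1 t
    exact (ZMod.natCast_eq_zero_iff _ _).1 this
  let ψ : (Fin n → ZMod 4) →+ A := (Fintype.linearCombination (ZMod 4) g).toAddMonoidHom
  have hψ : ∀ c, ψ c = ∑ t, (c t).val • g t := by
    intro c
    simp only [ψ, LinearMap.toAddMonoidHom_coe, Fintype.linearCombination_apply]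
    refine sum_congr rfl fun t _ => ?_
    rw [← Nat.cast_smul_eq_nsmul (ZMod 4), ZMod.natCast_zmod_val]
  have hi : Function.Injective ψ := by
    rw [injective_iff_map_eq_zero]
    intro c hcz
    rw [hψ] at hcz
    have h1 : ∀ t, 2 ∣ (c t).val := by
      apply hind
      simp only [smul_add, sum_add_distrib, hcz, add_zero]
    choose c' hc' using h1
    have h2 : ∀ t, 2 ∣ c' t := by
      apply hind
      rw [← hcz]
      refine sum_congr rfl fun t _ => ?_
      rw [hc', ← two_nsmul, smul_smul, mul_comm]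
    funext t
    obtain ⟨k, hk⟩ := h2 t
    have h3 : 4 ∣ (c t).val := ⟨k, by rw [hc', hk]; ring⟩
    rw [← ZMod.natCast_zmod_val (c t)]
    exact (ZMod.natCast_eq_zero_iff _ _).2 h3
  have hb : Function.Bijective ψ := by
    refine (Fintype.bijective_iff_injective_and_card ψ).2 ⟨hi, ?_⟩
    rw [h.card_eq, hN, hc, ← mul_pow]; simp
  exact ⟨n, hc, ⟨(AddEquiv.ofBijective ψ hb).symm⟩⟩

end IsRDS

end Pool.Agent.MP_f5a786_co

end

section

/-!
The transversal map of an (n,n,n,1) relative difference set with n even is quadratic.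
-/

set_option autoImplicit false

namespace Pool.Agent.MP_f5a786_co

open Finset

variable {A : Type} [AddCommGroup A]

/-- Difference operator. -/
def dl (a : A) (F : A → A) : A → A := fun x => F (x + a) - F x

lemma dl_comm (a b : A) (F : A → A) : dl a (dl b F) = dl b (dl a F) := by
  funext x
  simp only [dl, add_right_comm x a b]
  abel

lemma dl_add (a a' : A) (F : A → A) (x : A) : dl (a + a') F x = dl a F (x + a') + dl a' F x := by
  simp only [dl, add_right_comm x a' a, add_assoc]
  abel

lemma dl_zero (F : A → A) : dl 0 F = 0 := by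
  funext x; simp [dl]

lemma gen_induction {n : ℕ} (φ : A ≃+ (Fin n → ZMod 4)) (Q : A → Prop) (h0 : Q 0)
    (hadd : ∀ a b, Q a → Q b → Q (a + b)) (hs : ∀ t, Q (φ.symm (Pi.single t 1))) (a : A) :
    Q a := by
  have h1 : ∀ (k : ℕ) b, Q b → Q (k • b) := by
    intro k b hb
    induction k with
    | zero => simpa using h0
    | succ k ih => rw [succ_nsmul]; exact hadd _ _ ih hb
  have h2 : a = ∑ t, (φ a t).val • φ.symm (Pi.single t 1) := by
    apply φ.injective
    simp only [map_sum, map_nsmul, AddEquiv.apply_symm_apply]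
    funext s
    simp only [Finset.sum_apply, Pi.smul_apply, Pi.single_apply, smul_ite, smul_zero,
      sum_ite_eq, mem_univ, if_true]
    rw [nsmul_eq_mul, mul_one, ZMod.natCast_zmod_val]
  rw [h2]
  exact Finset.sum_induction _ Q hadd h0 fun t _ => h1 _ _ (hs t)

/-- Doubling map from Z/2 to Z/4. -/
def dbl (z : ZMod 2) : ZMod 4 := if z = 0 then 0 else 2

lemma eq_add_dbl : ∀ a b : ZMod 4, (b = 0 ∨ b = 1) → 2 • (a - b) = 0 → a = b + dbl (hi a) := by
  decide

lemma dbl_cube : ∀ z0 z1 z2 z3 z4 z5 z6 z7 : ZMod 2,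
    z0 + z1 + z2 + z3 + z4 + z5 + z6 + z7 = 0 →
    dbl z7 - dbl z6 - (dbl z5 - dbl z4) - (dbl z3 - dbl z2 - (dbl z1 - dbl z0)) = 0 := by
  decide

/-- The residue 0 or 1 attached to a Boolean. -/
def bz (e : Bool) : ZMod 4 := if e then 1 else 0

lemma exists_bz : ∀ a : ZMod 4, 2 • (a - bz (decide (2 • a ≠ 0))) = 0 := by decide

lemma bz_inj : ∀ e e' : Bool, 2 • (bz e - bz e') = 0 → e = e' := by decide

lemma even_trans : ∀ a : ZMod 4, 2 • (a - 0) = 0 ↔ ev a = 1 := by decide

lemma ev_cases : ∀ a : ZMod 4, ev a ≠ 1 → ev a = 0 := by decide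

namespace IsRDS

variable {N : AddSubgroup A} {D : Finset A} (h : IsRDS N D)
include h

variable [Fintype A] [DecidableEq A]

lemma cube_basis (hm : ∀ g, g ∈ N ↔ 2 • g = 0) {n : ℕ} (hc : D.card = 2 ^ n)
    (φ : A ≃+ (Fin n → ZMod 4)) (i j k : Fin n) (hij : i ≠ j) (hik : i ≠ k) (hjk : j ≠ k)
    (x : A) :
    dl (φ.symm (Pi.single i 1)) (dl (φ.symm (Pi.single j 1))
      (dl (φ.symm (Pi.single k 1)) h.rep)) x = 0 := by
  classical
  apply φ.injective
  funext m
  set y := h.rep x with hy
  let S : Finset (Fin n) := {i, j, k}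
  have hS : S.card = 3 := card_eq_three.2 ⟨i, j, k, hij, hik, hjk, rfl⟩
  have hn : 3 ≤ n := by simpa [hS] using card_le_univ S
  have hD : ∀ F : A → GaussianInt,
      ∑ d ∈ D, ∑ d' ∈ D, F (d - d') + ∑ g, (if 2 • g = 0 then F g else 0)
        = D.card • F 0 + ∑ g, F g := by
    intro F
    have := h.count F
    simp only [hm] at this
    convert this
  have hcore := core φ D (by simpa using hc) hD y (fun t => decide (t ∉ S))
    (fun t => decide (t = m)) (by
      simp only [vv, sum_add_distrib, decide_eq_true_eq]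
      rw [sum_ite_eq' univ m, ← sum_filter, filter_not, filter_mem_eq_inter]
      simp [card_sdiff, hS]
      omega) m (by simp)
  simp only [decide_eq_true_eq, prod_mul_distrib] at hcore
  simp only [prod_ite_eq', mem_univ, if_true] at hcore
  -- the eight points
  let W : Bool × Bool × Bool → Fin n → ZMod 4 := fun e =>
    Pi.single i (bz e.1) + Pi.single j (bz e.2.1) + Pi.single k (bz e.2.2)
  let R : Bool × Bool × Bool → A := fun e => h.rep (x + φ.symm (W e))
  have hWi : ∀ e, W e i = bz e.1 := by intro e; simp [W, hij, hik]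
  have hWj : ∀ e, W e j = bz e.2.1 := by intro e; simp [W, hij.symm, hjk]
  have hWk : ∀ e, W e k = bz e.2.2 := by intro e; simp [W, hik.symm, hjk.symm]
  have hWo : ∀ e t, t ∉ S → W e t = 0 := by
    intro e t ht
    simp only [S, mem_insert, mem_singleton, not_or] at ht
    simp [W, ht.1, ht.2.1, ht.2.2]
  have hW01 : ∀ e t, W e t = 0 ∨ W e t = 1 := by
    intro e t
    have hb : ∀ b : Bool, bz b = 0 ∨ bz b = 1 := by decide
    by_cases ht : t ∈ S
    · simp only [S, mem_insert, mem_singleton] at ht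
      rcases ht with rfl | rfl | rfl
      · rw [hWi]; exact hb _
      · rw [hWj]; exact hb _
      · rw [hWk]; exact hb _
    · exact Or.inl (hWo e t ht)
  have hmem : ∀ d e, d - (x + φ.symm (W e)) ∈ N ↔ ∀ t, 2 • (φ (d - y) t - W e t) = 0 := by
    intro d e
    have h1 : d - (x + φ.symm (W e)) ∈ N ↔ d - y - φ.symm (W e) ∈ N := by
      have h2 : d - (x + φ.symm (W e)) = (d - y - φ.symm (W e)) + (y - x) := by abel
      rw [h2]
      exact N.add_mem_cancel_right (h.rep_sub x)
    rw [h1, hm, ← φ.map_eq_zero_iff, map_nsmul, map_sub φ (d - y), AddEquiv.apply_symm_apply,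
      funext_iff]
    rfl
  have hR : ∀ e t, 2 • (φ (R e - y) t - W e t) = 0 := fun e => (hmem _ e).1 (h.rep_sub _)
  have hsum : ∑ e : Bool × Bool × Bool, hi (φ (R e - y) m) = 0 := by
    rw [← hcore]
    have h1 : ∀ d ∈ D, (∏ t, if t ∉ S then ev (φ (d - y) t) else 1) * hi (φ (d - y) m) =
        if ∀ t, t ∉ S → ev (φ (d - y) t) = 1 then hi (φ (d - y) m) else 0 := by
      intro d _
      split_ifs with hh
      · rw [prod_eq_one, one_mul]
        intro t _
        split_ifs with ht
        · rfl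
        · exact hh t ht
      · push Not at hh
        obtain ⟨t, ht, hne⟩ := hh
        rw [prod_eq_zero (mem_univ t), zero_mul]
        rw [if_pos ht]
        exact ev_cases _ hne
    rw [sum_congr rfl h1, ← sum_filter]
    refine sum_bij (fun e _ => R e) ?_ ?_ ?_ ?_
    · intro e _
      simp only [mem_filter]
      refine ⟨h.rep_mem _, fun t ht => ?_⟩
      have h2 := hR e t
      rw [hWo e t ht] at h2
      exact (even_trans _).1 h2
    · intro e _ e' _ he
      have h2 : ∀ t, 2 • (W e t - W e' t) = 0 := by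
        intro t
        have h3 := hR e t
        have h4 := hR e' t
        rw [he] at h3
        rw [smul_sub] at h3 h4 ⊢
        linear_combination h4 - h3
      have a1 := h2 i
      have a2 := h2 j
      have a3 := h2 k
      rw [hWi, hWi] at a1
      rw [hWj, hWj] at a2
      rw [hWk, hWk] at a3
      exact Prod.ext (bz_inj _ _ a1) (Prod.ext (bz_inj _ _ a2) (bz_inj _ _ a3))
    · intro d hd
      simp only [mem_filter] at hd
      refine ⟨(decide (2 • φ (d - y) i ≠ 0), decide (2 • φ (d - y) j ≠ 0),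
        decide (2 • φ (d - y) k ≠ 0)), mem_univ _, ?_⟩
      refine h.rep_eq hd.1 ((hmem _ _).2 fun t => ?_)
      by_cases ht : t ∈ S
      · simp only [S, mem_insert, mem_singleton] at ht
        rcases ht with rfl | rfl | rfl
        · rw [hWi]; exact exists_bz _
        · rw [hWj]; exact exists_bz _
        · rw [hWk]; exact exists_bz _
      · rw [hWo _ t ht, even_trans]; exact hd.2 t ht
    · intro e _; rfl
  have hval : ∀ e, φ (R e) m = φ y m + W e m + dbl (hi (φ (R e - y) m)) := by
    intro e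
    have h1 := eq_add_dbl _ _ (hW01 e m) (hR e m)
    rw [add_assoc, ← h1, map_sub, Pi.sub_apply]; abel
  have hexp : dl (φ.symm (Pi.single i 1)) (dl (φ.symm (Pi.single j 1))
      (dl (φ.symm (Pi.single k 1)) h.rep)) x =
      R (true, true, true) - R (true, true, false)
        - (R (true, false, true) - R (true, false, false))
        - (R (false, true, true) - R (false, true, false)
        - (R (false, false, true) - R (false, false, false))) := by
    simp [dl, R, W, bz, add_assoc]
  rw [hexp]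
  simp only [map_sub, Pi.sub_apply, map_zero, Pi.zero_apply]
  simp only [hval]
  have h8 := dbl_cube (hi (φ (R (false, false, false) - y) m))
    (hi (φ (R (false, false, true) - y) m)) (hi (φ (R (false, true, false) - y) m))
    (hi (φ (R (false, true, true) - y) m)) (hi (φ (R (true, false, false) - y) m))
    (hi (φ (R (true, false, true) - y) m)) (hi (φ (R (true, true, false) - y) m))
    (hi (φ (R (true, true, true) - y) m)) (by
      rw [← hsum]
      simp only [Fintype.sum_prod_type, Fintype.sum_bool]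
      ring)
  have h9 : W (true, true, true) m - W (true, true, false) m
        - (W (true, false, true) m - W (true, false, false) m)
        - (W (false, true, true) m - W (false, true, false) m
        - (W (false, false, true) m - W (false, false, false) m)) = 0 := by
    simp only [W, Pi.add_apply]; ring
  linear_combination h8 + h9

omit [Fintype A] [DecidableEq A] in
lemma cube_rep (hm : ∀ g, g ∈ N ↔ 2 • g = 0) (h2 : ∀ g : A, g + g ∈ N) (a b : A) :
    dl b (dl a (dl a h.rep)) = 0 := by
  have h1 : ∀ x, dl a (dl a h.rep) x = -(a + a) := by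
    intro x
    have h3 : h.rep (x + a + a) = h.rep x := h.rep_congr (by simpa [add_assoc] using h2 a)
    have h4 := (hm _).1 (N.sub_mem (h.rep_sub x) (h.rep_sub (x + a)))
    simp only [dl, h3]
    rw [← sub_eq_zero, ← h4]
    abel
  funext x
  rw [dl, h1, h1]; simp

/-- All third differences of the transversal map vanish. -/
theorem cube (hev : Even D.card) (hN : Nat.card N = D.card) (h0 : (0 : A) ∈ D) (a b c : A) :
    dl a (dl b (dl c h.rep)) = 0 := by
  have hm := h.mem_iff hev hN h0
  have h2 := h.double_mem hev hN h0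
  obtain ⟨n, hc, ⟨φ⟩⟩ := h.exists_coord hev hN h0
  have hadd : ∀ (F : A → A) (a a' : A), dl a F = 0 → dl a' F = 0 → dl (a + a') F = 0 := by
    intro F a a' ha ha'
    funext x
    rw [dl_add, ha, ha']; simp
  have s1 : ∀ (j k : Fin n) (a : A), dl a (dl (φ.symm (Pi.single j 1))
      (dl (φ.symm (Pi.single k 1)) h.rep)) = 0 := by
    intro j k a
    by_cases hjk : j = k
    · rw [hjk]; exact h.cube_rep hm h2 _ _
    refine gen_induction φ (fun a => dl a _ = 0) (dl_zero _) (hadd _) (fun i => ?_) a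
    by_cases hij : i = j
    · rw [hij, dl_comm _ (φ.symm (Pi.single k 1)), dl_comm _ (φ.symm (Pi.single k 1))]
      exact h.cube_rep hm h2 _ _
    by_cases hik : i = k
    · rw [hik, dl_comm _ (φ.symm (Pi.single j 1))]
      exact h.cube_rep hm h2 _ _
    funext x
    exact h.cube_basis hm hc φ i j k hij hik hjk x
  have s2 : ∀ (k : Fin n) (a b : A), dl a (dl b (dl (φ.symm (Pi.single k 1)) h.rep)) = 0 := by
    intro k a b
    refine gen_induction φ (fun a => dl a _ = 0) (dl_zero _) (hadd _) (fun i => ?_) a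
    rw [dl_comm]
    exact s1 i k b
  refine gen_induction φ (fun a => dl a _ = 0) (dl_zero _) (hadd _) (fun i => ?_) a
  rw [dl_comm _ b, dl_comm _ c]
  exact s2 i b c

end IsRDS

end Pool.Agent.MP_f5a786_co

end

section

/-!
The commutative semifield attached to an (n,n,n,1) relative difference set with n even.
-/

set_option autoImplicit false

namespace Pool.Agent.MP_f5a786_co

open Finset

variable {A : Type} [AddCommGroup A]

/-- A commutative bi-additive multiplication with identity gives a ring structure. -/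
@[reducible] def ringOfMul {S : Type} [AddCommGroup S] (mu : S → S → S) (o : S)
    (hc : ∀ a b, mu a b = mu b a) (ha : ∀ a b c, mu (a + b) c = mu a c + mu b c)
    (ho : ∀ a, mu o a = a) : NonAssocRing S :=
  { (inferInstance : AddCommGroup S) with
    mul := mu
    one := o
    left_distrib := fun a b c => by
      change mu a (b + c) = mu a b + mu a c
      rw [hc a, ha, hc a, hc a]
    right_distrib := ha
    zero_mul := fun a => by
      change mu 0 a = 0
      have := ha 0 0 a
      rw [add_zero] at this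
      simpa using this
    mul_zero := fun a => by
      change mu a 0 = 0
      have := ha 0 0 a
      rw [add_zero, hc] at this
      simpa using this
    one_mul := ho
    mul_one := fun a => by
      change mu a o = a
      rw [hc, ho] }

namespace IsRDS

variable {N : AddSubgroup A} {D : Finset A} (h : IsRDS N D)
include h

/-- The second difference of the transversal map. -/
noncomputable def be (a b : A) : A := h.rep (a + b) - h.rep a - h.rep b

lemma be_comm (a b : A) : h.be a b = h.be b a := by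
  simp only [be, add_comm a b]; abel

lemma be_mem (a b : A) : h.be a b ∈ N := by
  have := N.sub_mem (N.sub_mem (h.rep_sub (a + b)) (h.rep_sub a)) (h.rep_sub b)
  convert this using 1
  simp only [be]; abel

lemma be_congr {a a' : A} (ha : a - a' ∈ N) (b : A) : h.be a b = h.be a' b := by
  simp only [be]
  rw [h.rep_congr ha, h.rep_congr (g := a + b) (g' := a' + b) (by simpa using ha)]

lemma be_eq_zero (h0 : (0 : A) ∈ D) {a b : A} (hab : h.be a b = 0) : a ∈ N ∨ b ∈ N := by
  by_contra hc
  push Not at hc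
  have h1 : h.rep (a + b) - h.rep a = h.rep b - 0 := by
    rw [sub_zero, ← sub_eq_zero]; exact hab
  have h2 : h.rep (a + b) - h.rep a ∉ N := by
    rw [h1, sub_zero]
    intro hn
    exact hc.2 (by simpa using N.sub_mem hn (h.rep_sub b))
  have h3 := (h.diff_unique (h.rep_mem _) (h.rep_mem _) (h.rep_mem _) h0 h1 h2).2
  have h4 := h.rep_sub a
  rw [h3, zero_sub, N.neg_mem_iff] at h4
  exact hc.1 h4

variable [Fintype A] [DecidableEq A]

lemma be_add (hev : Even D.card) (hN : Nat.card N = D.card) (h0 : (0 : A) ∈ D) (a a' b : A) :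
    h.be (a + a') b = h.be a b + h.be a' b := by
  have h1 := congrFun (h.cube hev hN h0 a a' b) 0
  have h2 : h.rep 0 = 0 := h.rep_eq h0 (by simp)
  simp only [dl, zero_add, h2, Pi.zero_apply] at h1
  simp only [be]
  rw [← sub_eq_zero, ← h1]
  abel

theorem coord (hev : Even D.card) (hN : Nat.card N = D.card) (h0 : (0 : A) ∈ D)
    (h2 : 1 < D.card) :
    ∃ (S : Type) (_ : NonAssocRing S) (_ : NoZeroDivisors S) (_ : Nontrivial S) (_ : Finite S),
      (∀ a b : S, a * b = b * a) ∧ ∃ (pt ln : S × S → A) (vx : S → A),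
        Function.Bijective pt ∧ Function.Bijective ln ∧
        (∀ x y m k : S, pt (x, y) - ln (m, k) ∈ D ↔ m * x + y = k) ∧
        (∀ x y k : S, pt (x, y) - vx k ∈ N ↔ x = k) := by
  have hadd := h.be_add hev hN h0
  have hsub : ∀ a a' b, h.be (a - a') b = h.be a b - h.be a' b := by
    intro a a' b
    rw [eq_sub_iff_add_eq, ← hadd, sub_add_cancel]
  obtain ⟨e, he, he0⟩ := exists_mem_ne h2 0
  have heN : e ∉ N := fun hn => he0 (h.eq_of_sub_mem he h0 (by simpa using hn))
  have hcancel : ∀ a a', h.be a e = h.be a' e → a - a' ∈ N := by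
    intro a a' haa
    refine (h.be_eq_zero h0 (b := e) ?_).resolve_right heN
    rw [hsub, haa, sub_self]
  let f : D → N := fun d => ⟨h.be d e, h.be_mem _ _⟩
  have hi : Function.Injective f := fun a b hab =>
    Subtype.ext (h.eq_of_sub_mem a.2 b.2 (hcancel _ _ (congrArg Subtype.val hab)))
  have hb := hi.bijective_of_nat_card_le (by rw [hN]; simp)
  choose σ' hσ' using hb.2
  let σ : N → A := fun x => σ' x
  have hσD : ∀ x, σ x ∈ D := fun x => (σ' x).2
  have hσ : ∀ x, h.be (σ x) e = x := fun x => congrArg Subtype.val (hσ' x)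
  have hσinj : ∀ x x', σ x - σ x' ∈ N → x = x' := by
    intro x x' hx
    apply Subtype.ext
    rw [← hσ x, ← hσ x', h.be_congr hx]
  let mu : N → N → N := fun x y => ⟨h.be (σ x) (σ y), h.be_mem _ _⟩
  have hc : ∀ a b, mu a b = mu b a := fun a b => Subtype.ext (h.be_comm _ _)
  have ha : ∀ a b c, mu (a + b) c = mu a c + mu b c := by
    intro a b c
    apply Subtype.ext
    change h.be (σ (a + b)) (σ c) = h.be (σ a) (σ c) + h.be (σ b) (σ c)
    rw [← hadd]
    refine h.be_congr (hcancel _ _ ?_) _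
    rw [hadd, hσ, hσ, hσ]; rfl
  have ho : ∀ a, mu ⟨h.be e e, h.be_mem _ _⟩ a = a := by
    intro a
    apply Subtype.ext
    change h.be (σ _) (σ a) = a
    rw [h.be_congr (hcancel _ e (by rw [hσ])), h.be_comm, hσ]
  have hz : ∀ x : N, σ x ∈ N → x = 0 := by
    intro x hx
    apply Subtype.ext
    rw [← hσ x, h.be_congr (a' := 0) (by simpa using hx)]
    have := hadd 0 0 e
    rw [add_zero] at this
    simpa using this
  have hbij : ∀ c : N → N, Function.Bijective (fun p : N × N => σ p.1 + (p.2 - c p.1 : N)) := by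
    intro c
    rw [Nat.bijective_iff_injective_and_card]
    constructor
    · rintro ⟨x, y⟩ ⟨x', y'⟩ hh
      simp only at hh
      have h3 : x = x' := by
        apply hσinj
        have : σ x - σ x' = ((y' - c x' : N) : A) - (y - c x : N) := by
          rw [sub_eq_sub_iff_add_eq_add, hh, add_comm]
        rw [this]
        exact N.sub_mem (Subtype.property _) (Subtype.property _)
      subst h3
      have h4 := Subtype.ext (add_left_cancel hh)
      rw [sub_left_inj] at h4
      rw [h4]
    · rw [Nat.card_prod, Nat.card_eq_fintype_card (α := A), h.card_eq, hN]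
  letI : NonAssocRing N := ringOfMul mu _ hc ha ho
  refine ⟨N, inferInstance, ⟨?_⟩, ?_, inferInstance, hc,
    fun p => σ p.1 + (p.2 - 0 : N), fun p => σ p.1 + (p.2 - mu p.1 p.1 : N), σ,
    hbij (fun _ => 0), hbij (fun m => mu m m), ?_, ?_⟩
  · intro a b hab
    have : h.be (σ a) (σ b) = 0 := congrArg Subtype.val hab
    exact (h.be_eq_zero h0 this).imp (hz a) (hz b)
  · exact Finite.one_lt_card_iff_nontrivial.1 (by rw [hN]; exact h2)
  · intro x y m k
    have h3 : h.rep (σ x - σ m) = σ x - σ m - h.be (σ m) (σ x) + h.be (σ m) (σ m) := by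
      have h4 : h.be (σ x - σ m) (σ m) = σ x - h.rep (σ x - σ m) - σ m := by
        simp only [be, sub_add_cancel]
        rw [h.rep_eq (hσD x) (g := σ x) (by simp), h.rep_eq (hσD m) (g := σ m) (by simp)]
      rw [hsub, h.be_comm] at h4
      rw [← sub_eq_zero] at h4 ⊢
      rw [← h4]; abel
    have h5 : (m * x + y = k) ↔ h.be (σ m) (σ x) + (y : A) = k := Subtype.ext_iff
    rw [h5]
    change σ x + ((y : A) - 0) - (σ m + ((k : A) - h.be (σ m) (σ m))) ∈ D ↔ _
    constructor
    · intro hh
      have h6 := h.rep_eq hh (g := σ x - σ m) (by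
        have := N.add_mem (N.sub_mem y.2 k.2) (h.be_mem (σ m) (σ m))
        convert this using 1
        abel)
      rw [h3, ← sub_eq_zero] at h6
      rw [← sub_eq_zero, ← neg_eq_zero, ← h6]; abel
    · intro hh
      have := h.rep_mem (σ x - σ m)
      rw [h3] at this
      convert this using 1
      rw [← hh]; abel
  · intro x y k
    change σ x + ((y : A) - 0) - σ k ∈ N ↔ _
    constructor
    · intro hh
      apply hσinj
      have := N.sub_mem hh y.2
      convert this using 1
      abel
    · rintro rfl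
      simp

end IsRDS

end Pool.Agent.MP_f5a786_co

end

section

/-!
From a plane with an abelian group of type (b) to a relative difference set, and back.
-/

set_option autoImplicit false

namespace Pool.Agent.MP_f5a786_co

open Configuration

variable {P L : Type} [Membership P L] [ProjectivePlane P L]

lemma pt_eq {p q : P} {l m : L} (h1 : p ∈ l) (h2 : q ∈ l) (h3 : p ∈ m) (h4 : q ∈ m)
    (h : l ≠ m) : p = q := (Nondegenerate.eq_or_eq h1 h2 h3 h4).resolve_right h

lemma ln_eq {p q : P} {l m : L} (h1 : p ∈ l) (h2 : q ∈ l) (h3 : p ∈ m) (h4 : q ∈ m)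
    (h : p ≠ q) : l = m := (Nondegenerate.eq_or_eq h1 h2 h3 h4).resolve_left h

lemma exists_meet {l m : L} (h : l ≠ m) : ∃ p : P, p ∈ l ∧ p ∈ m :=
  ⟨HasPoints.mkPoint h, HasPoints.mkPoint_ax h⟩

lemma exists_join {p q : P} (h : p ≠ q) : ∃ l : L, p ∈ l ∧ q ∈ l :=
  ⟨HasLines.mkLine h, HasLines.mkLine_ax h⟩

lemma card_affine [Finite P] [Finite L] {l m : L} (h : l ≠ m) :
    Set.ncard {p : P | p ∈ l ∧ p ∉ m} = ProjectivePlane.order P L := by
  obtain ⟨q, hq⟩ := exists_meet (P := P) h
  have h1 : {p : P | p ∈ l ∧ p ∉ m} = {p : P | p ∈ l} \ {q} := by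
    ext p
    simp only [Set.mem_setOf_eq, Set.mem_diff, Set.mem_singleton_iff]
    refine and_congr_right fun hp => not_congr ⟨fun hm => pt_eq hp hq.1 hm hq.2 h, ?_⟩
    rintro rfl; exact hq.2
  have h2 := ProjectivePlane.pointCount_eq P l
  have h3 : pointCount P l = Set.ncard {p : P | p ∈ l} := rfl
  have h4 := Set.ncard_diff_singleton_add_one (s := {p : P | p ∈ l}) (a := q) hq.1
  rw [h1]
  omega

/-- The plane in terms of an abelian group acting regularly on affine points and lines. -/
theorem plane_coord [Finite P] [Finite L] (hev : Even (ProjectivePlane.order P L))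
    {A : Type} [AddCommGroup A] (pos : A → P) (act : A → L → L) (pinf : P) (Linf l0 v0 : L)
    (hinf : pinf ∈ Linf)
    (inc : ∀ a b l, pos a ∈ act b l ↔ pos (a - b) ∈ l)
    (hfix : ∀ b l, pinf ∈ act b l ↔ pinf ∈ l)
    (hA : ∀ a, pos a ∉ Linf) (hAs : ∀ p, p ∉ Linf → ∃ a, pos a = p)
    (hAi : Function.Injective pos)
    (hl0 : pinf ∉ l0) (hp0 : pos 0 ∈ l0)
    (hLs : ∀ l, pinf ∉ l → ∃ b, act b l0 = l) (hLi : Function.Injective (fun b => act b l0))
    (hv0 : pinf ∈ v0) (hv1 : pos 0 ∈ v0) :
    ∃ (S : Type) (_ : NonAssocRing S) (_ : NoZeroDivisors S) (_ : Nontrivial S) (_ : Finite S),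
        (∀ a b : S, a * b = b * a) ∧
        ∃ (e : S × S ⊕ Option S ≃ P) (f : S × S ⊕ Option S ≃ L),
          ∀ x y m m' k : S,
            (e (Sum.inl (x, y)) ∈ f (Sum.inl (m, k)) ↔ m * x + y = k) ∧
            (e (Sum.inl (x, y)) ∈ f (Sum.inr (some k)) ↔ x = k) ∧
            (e (Sum.inl (x, y)) ∉ f (Sum.inr none)) ∧
            (e (Sum.inr (some m')) ∈ f (Sum.inl (m, k)) ↔ m' = m) ∧
            (e (Sum.inr (some m')) ∉ f (Sum.inr (some k))) ∧
            (e (Sum.inr (some m')) ∈ f (Sum.inr none)) ∧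
            (e (Sum.inr none) ∉ f (Sum.inl (m, k))) ∧
            (e (Sum.inr none) ∈ f (Sum.inr (some k))) ∧
            (e (Sum.inr none) ∈ f (Sum.inr none)) := by
  classical
  haveI : Finite A := Finite.of_injective pos hAi
  letI : Fintype A := Fintype.ofFinite A
  have hne : ∀ a, pos a ≠ pinf := fun a ha => hA a (ha ▸ hinf)
  have hself : ∀ b, pos b ∈ act b v0 := fun b => by rw [inc, sub_self]; exact hv1
  have hV : ∀ b, pinf ∈ act b v0 := fun b => (hfix b v0).2 hv0
  have hL : ∀ b, pinf ∉ act b l0 := fun b hb => hl0 ((hfix b l0).1 hb)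
  have hVne : ∀ b, act b v0 ≠ Linf := fun b hb => hA b (hb ▸ hself b)
  have hLne : ∀ b, act b l0 ≠ Linf := fun b hb => hL b (hb ▸ hinf)
  have hstab : ∀ b, pos b ∈ v0 → act b v0 = v0 := fun b hb =>
    ln_eq (hself b) (hV b) hb hv0 (hne b)
  let N : AddSubgroup A := AddSubgroup.ofSub {a | pos a ∈ v0} ⟨0, hv1⟩ (by
    intro x hx y hy
    change pos (x + -y) ∈ v0
    rw [← sub_eq_add_neg, ← inc, hstab y hy]
    exact hx)
  have hN : ∀ a, a ∈ N ↔ pos a ∈ v0 := fun a => Iff.rfl
  let D : Finset A := Finset.univ.filter (fun a => pos a ∈ l0)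
  have hD : ∀ a, a ∈ D ↔ pos a ∈ l0 := fun a => by simp [D]
  have hcount : ∀ l, l ≠ Linf → Nat.card {a : A | pos a ∈ l} = ProjectivePlane.order P L := by
    intro l hl
    rw [← card_affine (P := P) hl, Nat.card_coe_set_eq,
      ← Set.ncard_image_of_injective _ hAi]
    congr 1
    ext p
    constructor
    · rintro ⟨a, ha, rfl⟩; exact ⟨ha, hA a⟩
    · rintro ⟨h1, h2⟩
      obtain ⟨a, rfl⟩ := hAs p h2
      exact ⟨a, h1, rfl⟩
  have hDc : D.card = ProjectivePlane.order P L := by
    rw [← hcount l0 (fun hh => hl0 (hh ▸ hinf)), Nat.card_coe_set_eq, ← Set.ncard_coe_finset]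
    congr 1
    ext a
    simp [D]
  have hNc : Nat.card N = D.card := by
    rw [hDc, ← hcount v0 (fun hh => hA 0 (hh ▸ hv1))]
    rfl
  have h : IsRDS N D := by
    constructor
    · intro g hg
      have hg0 : pos g ≠ pos 0 := fun hh => hg (by rw [hN, hh]; exact hv1)
      obtain ⟨m, hm1, hm2⟩ := exists_join (L := L) hg0
      have hm3 : pinf ∉ m := fun hh => hg (by
        rw [hN, ← ln_eq hm2 hh hv1 hv0 (hne 0)]; exact hm1)
      obtain ⟨b, rfl⟩ := hLs m hm3
      refine ⟨(g - b, 0 - b), ⟨(hD _).2 ((inc _ _ _).1 hm1), (hD _).2 ((inc _ _ _).1 hm2),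
        by simp⟩, ?_⟩
      rintro ⟨d, d'⟩ ⟨hd, hd', hdd⟩
      have h1 : pos g ∈ act (-d') l0 := by
        rw [inc, ← hdd]; simpa using (hD _).1 hd
      have h2 : pos 0 ∈ act (-d') l0 := by
        rw [inc]; simpa using (hD _).1 hd'
      have h3 : -d' = b := hLi (ln_eq h1 h2 hm1 hm2 hg0)
      rw [← h3, ← hdd]; simp
    · intro g
      have h1 : l0 ≠ act g v0 := fun hh => hl0 (hh ▸ hV g)
      obtain ⟨q, hq1, hq2⟩ := exists_meet (P := P) h1
      have hq3 : q ∉ Linf := fun hh => hl0 (pt_eq hq2 (hV g) hh hinf (hVne g) ▸ hq1)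
      obtain ⟨d, rfl⟩ := hAs q hq3
      refine ⟨d, ⟨(hD _).2 hq1, (hN _).2 ((inc _ _ _).1 hq2)⟩, ?_⟩
      rintro d' ⟨hd1, hd2⟩
      exact hAi (pt_eq ((hD _).1 hd1) hq1 ((inc _ _ _).2 ((hN _).1 hd2)) hq2 h1)
  obtain ⟨S, i1, i2, i3, i4, hcomm, pt, ln, vx, hpt, hln, hI, hIv⟩ :=
    h.coord (hDc ▸ hev) hNc ((hD _).2 hp0) (hDc ▸ ProjectivePlane.one_lt_order P L)
  refine ⟨S, i1, i2, i3, i4, hcomm, ?_⟩
  choose inf hinf1 hinf2 using fun m : S => exists_meet (P := P) (hLne (ln (m, 0)))
  have I1 : ∀ x y m k, pos (pt (x, y)) ∈ act (ln (m, k)) l0 ↔ m * x + y = k := by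
    intro x y m k; rw [inc, ← hD, hI]
  have I2 : ∀ x y k, pos (pt (x, y)) ∈ act (vx k) v0 ↔ x = k := by
    intro x y k; rw [inc, ← hN, hIv]
  have hLi' : Function.Injective (fun p => act (ln p) l0) := hLi.comp hln.1
  have I4 : ∀ m' m k, inf m' ∈ act (ln (m, k)) l0 ↔ m' = m := by
    intro m' m k
    constructor
    · intro hh
      by_contra hmm
      have hs : Function.Surjective (fun x : S => (m - m') * x) :=
        Finite.surjective_of_injective fun x x' hx => by
          have : (m - m') * (x - x') = 0 := by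
            rw [mul_sub]; exact sub_eq_zero.2 hx
          rcases mul_eq_zero.1 this with h1 | h1
          · exact absurd (sub_eq_zero.1 h1).symm hmm
          · exact sub_eq_zero.1 h1
      obtain ⟨x, hx⟩ := hs k
      have h1 := (I1 x (-(m' * x)) m' 0).2 (by simp)
      have h2 := (I1 x (-(m' * x)) m k).2 (by rw [← hx]; simp only [sub_mul]; abel)
      have h3 := ln_eq h1 (hinf1 m') h2 hh (fun he => hA _ (he ▸ hinf2 m'))
      exact hmm (congrArg Prod.fst (hLi' h3))
    · rintro rfl
      by_cases hk : act (ln (m', 0)) l0 = act (ln (m', k)) l0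
      · exact hk ▸ hinf1 m'
      · obtain ⟨q, hq1, hq2⟩ := exists_meet (P := P) hk
        have hq3 : q ∈ Linf := by
          by_contra hq
          obtain ⟨a, rfl⟩ := hAs q hq
          obtain ⟨⟨x, y⟩, rfl⟩ := hpt.2 a
          rw [I1] at hq1 hq2
          exact hk (by rw [← hq2, hq1])
        exact pt_eq hq1 (hinf1 m') hq3 (hinf2 m') (hLne _) ▸ hq2
  have I5 : ∀ m k, inf m ∉ act (vx k) v0 := fun m k hh =>
    hL _ (pt_eq hh (hV _) (hinf2 m) hinf (hVne _) ▸ hinf1 m)
  let e : S × S ⊕ Option S → P := Sum.elim (fun p => pos (pt p)) (fun o => o.elim pinf inf)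
  let f : S × S ⊕ Option S → L :=
    Sum.elim (fun p => act (ln p) l0) (fun o => o.elim Linf (fun k => act (vx k) v0))
  have he : Function.Bijective e := by
    constructor
    · rintro (p | _ | m) (p' | _ | m') hh <;>
        simp only [e, Sum.elim_inl, Sum.elim_inr, Option.elim] at hh
      · rw [hpt.1 (hAi hh)]
      · exact absurd hh (hne _)
      · exact absurd (hh ▸ hinf2 m') (hA _)
      · exact absurd hh.symm (hne _)
      · rfl
      · exact absurd (hh ▸ hinf1 m') (hL _)
      · exact absurd (hh ▸ hinf2 m) (hA _)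
      · exact absurd (hh ▸ hinf1 m) (hL _)
      · rw [(I4 m m' 0).1 (hh ▸ hinf1 m')]
    · intro p
      by_cases hp : p ∈ Linf
      · by_cases hp' : p = pinf
        · exact ⟨Sum.inr none, hp'.symm⟩
        · have h1 : p ≠ pos 0 := fun hh => hA 0 (hh ▸ hp)
          obtain ⟨l, hl1, hl2⟩ := exists_join (L := L) h1
          have h2 : pinf ∉ l := fun hh => hA 0 (ln_eq hl1 hh hp hinf hp' ▸ hl2)
          obtain ⟨b, rfl⟩ := hLs l h2
          obtain ⟨⟨m, k⟩, rfl⟩ := hln.2 b
          exact ⟨Sum.inr (some m), pt_eq ((I4 m m k).2 rfl) hl1 (hinf2 m) hp (hLne _)⟩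
      · obtain ⟨a, rfl⟩ := hAs p hp
        obtain ⟨q, rfl⟩ := hpt.2 a
        exact ⟨Sum.inl q, rfl⟩
  have hf : Function.Bijective f := by
    constructor
    · rintro (p | _ | m) (p' | _ | m') hh <;>
        simp only [f, Sum.elim_inl, Sum.elim_inr, Option.elim] at hh
      · rw [hLi' hh]
      · exact absurd hh (hLne _)
      · exact absurd (hh ▸ hV _) (hL _)
      · exact absurd hh.symm (hLne _)
      · rfl
      · exact absurd hh.symm (hVne _)
      · exact absurd (hh ▸ hV _) (hL _)
      · exact absurd hh (hVne _)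
      · rw [(I2 m 0 m').1 (hh ▸ (I2 m 0 m).2 rfl)]
    · intro l
      by_cases hl : pinf ∈ l
      · by_cases hl' : l = Linf
        · exact ⟨Sum.inr none, hl'.symm⟩
        · have h1 : 0 < Nat.card {a : A | pos a ∈ l} := by
            rw [hcount l hl']; exact ProjectivePlane.one_lt_order P L |>.le
          obtain ⟨⟨a, ha⟩⟩ := (Nat.card_pos_iff.1 h1).1
          obtain ⟨⟨x, y⟩, rfl⟩ := hpt.2 a
          exact ⟨Sum.inr (some x), ln_eq ((I2 x y x).2 rfl) (hV _) ha hl (hne _)⟩
      · obtain ⟨b, rfl⟩ := hLs l hl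
        obtain ⟨q, rfl⟩ := hln.2 b
        exact ⟨Sum.inl q, rfl⟩
  refine ⟨Equiv.ofBijective e he, Equiv.ofBijective f hf, fun x y m m' k => ?_⟩
  exact ⟨I1 x y m k, I2 x y k, hA _, I4 m' m k, I5 m' k, hinf2 m', hL _, hV _, hinf⟩

end Pool.Agent.MP_f5a786_co

end
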